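import Pool.Agent.H91.PH.Pos

/-!
Positive operators commuting with the algebra on an invariant subspace all of whose semidefinite
invariant subspaces are isotropic.
-/

set_option autoImplicit false

open scoped InnerProductSpace ComplexConjugate
open Pool.Agent.H91.PH

namespace Pool.Agent.H25.PH

variable {H : Type} [NormedAddCommGroup H] [InnerProductSpace ℂ H] [CompleteSpace H]

theorem pos_on {E : H →L[ℂ] H} (hE : E * E = E) (hE' : star E = E)
    {A : Subalgebra ℂ (H →L[ℂ] H)} (hA : Symm (Jm E) A) {Y : Submodule ℂ H}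
    (hYc : IsClosed (Y : Set H)) (hYA : ∀ a ∈ A, ∀ v ∈ Y, a v ∈ Y)
    (hsemi : ∀ S : Submodule ℂ H, S ≤ Y → (∀ a ∈ A, ∀ v ∈ S, a v ∈ S) →
      ((∀ v ∈ S, 0 ≤ (fm (Jm E) v v).re) ∨ (∀ v ∈ S, (fm (Jm E) v v).re ≤ 0)) →
      ∀ v ∈ S, ∀ y ∈ Y, fm (Jm E) v y = 0)
    {q : H →L[ℂ] H} (hqA : ∀ a ∈ A, ∀ x, q (a x) = a (q x))
    (hqs : ∀ f g : H, fm (Jm E) (q f) g = fm (Jm E) f (q g))
    (hpos : ∀ v, 0 ≤ (fm (Jm E) (q v) v).re) (hqY : ∀ y ∈ Y, q y ∈ Y) :
    ∀ y ∈ Y, ∀ y' ∈ Y, fm (Jm E) (q y) y' = 0 := by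
  have hG := herm_Jm hE hE'
  have hnd := nondeg_Jm hE hE'
  set J := Jm E with hJ
  set G : H →L[ℂ] H := J * q with hGdef
  have hGf : ∀ f g, fm G f g = fm J (q f) g := fun f g => rfl
  have hGH : Herm G := by
    intro f g
    rw [hGf, hGf, hqs, hG]
  have hX : PosForm (fun f g : H => fm G f g) :=
    ⟨fun h h' g => fm_add_left h h' g, fun c h g => fm_smul_left c h g, fun h g => hGH h g,
      fun h => hpos h⟩
  obtain ⟨K, _, _, _, j₀, hj₀, hd₀⟩ := exists_completion hX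
  have hre : ∀ h, ‖j₀ h‖ ^ 2 = (fm G h h).re := by
    intro h
    rw [← hj₀ h h, inner_self_eq_norm_sq_to_K]
    change _ = ((‖j₀ h‖ : ℂ) ^ 2).re
    rw [← Complex.ofReal_pow, Complex.ofReal_re]
  let j : H →L[ℂ] K := j₀.mkContinuous (Real.sqrt ‖G‖) (fun h => by
    refine le_of_pow_le_pow_left₀ two_ne_zero (by positivity) ?_
    rw [hre, mul_pow, Real.sq_sqrt (norm_nonneg _)]
    calc (fm G h h).re ≤ ‖fm G h h‖ := Complex.re_le_norm _
      _ ≤ ‖G h‖ * ‖h‖ := norm_inner_le_norm _ _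
      _ ≤ (‖G‖ * ‖h‖) * ‖h‖ := by gcongr; exact G.le_opNorm h
      _ = ‖G‖ * ‖h‖ ^ 2 := by ring)
  have hj : ∀ h g, ⟪j h, j g⟫_ℂ = fm J (q h) g := fun h g => hj₀ h g
  have hdj : ∀ v : K, ∀ ε > 0, ∃ h ∈ (⊤ : Submodule ℂ H), ‖v - j₀ h‖ < ε := by
    intro v ε hε
    obtain ⟨z, hz1, h, rfl⟩ := Metric.dense_iff.mp hd₀ v ε hε
    refine ⟨h, Submodule.mem_top, ?_⟩
    rwa [Metric.mem_ball, dist_comm, dist_eq_norm] at hz1
  let jp : K →L[ℂ] H := J.comp (ContinuousLinearMap.adjoint j)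
  have hjp : ∀ u h, fm J (jp u) h = ⟪u, j h⟫_ℂ := by
    intro u h
    change ⟪J (J ((ContinuousLinearMap.adjoint j) u)), h⟫_ℂ = _
    rw [Jm_apply_sq hE, ContinuousLinearMap.adjoint_inner_left]
  have ext_fm : ∀ v w : H, (∀ h, fm J v h = fm J w h) → v = w := by
    intro v w h
    have h1 : v - w = 0 := hnd _ fun g => by
      apply hG.eq_zero
      rw [fm_sub_left, h, sub_self]
    exact sub_eq_zero.mp h1
  have hjq : ∀ h, jp (j h) = q h := fun h => ext_fm _ _ fun g => by rw [hjp, hj]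
  -- the action of the algebra
  have hact : ∀ a ∈ A, ∃ b : K →L[ℂ] K, ∀ h, b (j h) = j (a h) := by
    intro a ha
    obtain ⟨a', ha', haa⟩ := hA a ha
    have hs : ∀ f g : H, fm G (a f) g = fm G f (a' g) := by
      intro f g
      rw [hGf, hGf, hqA a ha, haa]
    obtain ⟨b, hb, -⟩ := exists_bdd (M := (⊤ : Submodule ℂ H)) (x := j₀)
      (a := (a : H →ₗ[ℂ] H)) (norm_nonneg a) (fun h _ => by
        refine le_of_pow_le_pow_left₀ two_ne_zero (by positivity) ?_
        rw [mul_pow, hre, hre]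
        exact lax_norm hE hE' hGH (N := ⊤) (fun v _ => hpos v) (fun _ _ => Submodule.mem_top)
          (fun _ _ => Submodule.mem_top) hs haa (Submodule.mem_top (x := h)))
    exact ⟨b, fun h => hb h Submodule.mem_top⟩
  have hact_adj : ∀ a ∈ A, ∀ a' ∈ A, (∀ f g : H, fm J (a f) g = fm J f (a' g)) →
      ∀ b b' : K →L[ℂ] K, (∀ h, b (j h) = j (a h)) → (∀ h, b' (j h) = j (a' h)) →
      ∀ u v, ⟪b u, v⟫_ℂ = ⟪u, b' v⟫_ℂ := by
    intro a ha a' ha' haa b b' hb hb' u v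
    refine dense_inner hdj (fun h _ g _ => ?_) u v
    change ⟪b (j h), j g⟫_ℂ = ⟪j h, b' (j g)⟫_ℂ
    rw [hb, hb', hj, hj, hqA a ha, haa]
  have hjpa : ∀ a ∈ A, ∀ b : K →L[ℂ] K, (∀ h, b (j h) = j (a h)) → ∀ u, a (jp u) = jp (b u) := by
    intro a ha b hb u
    obtain ⟨a', ha', haa⟩ := hA a ha
    obtain ⟨b', hb'⟩ := hact a' ha'
    refine ext_fm _ _ fun h => ?_
    rw [haa, hjp, hjp, ← hb', hact_adj a ha a' ha' haa b b' hb hb']
  let t : K →L[ℂ] K := j.comp jp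
  have ht : star t = t := by
    refine ext_of_inner fun u v => ?_
    rw [adj_left]
    change ⟪u, j (jp v)⟫_ℂ = ⟪j (jp u), v⟫_ℂ
    have h1 : ⟪j (jp u), v⟫_ℂ = ⟪jp u, (ContinuousLinearMap.adjoint j) v⟫_ℂ :=
      (ContinuousLinearMap.adjoint_inner_right _ _ _).symm
    rw [h1, ← hjp]
    change ⟪J (jp u), J ((ContinuousLinearMap.adjoint j) v)⟫_ℂ = _
    rw [← Jm_adj hE', Jm_apply_sq hE]
  have htc : ∀ a ∈ A, ∀ b : K →L[ℂ] K, (∀ h, b (j h) = j (a h)) → t * b = b * t := by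
    intro a ha b hb
    ext u
    change j (jp (b u)) = b (j (jp u))
    rw [hb, ← hjpa a ha b hb]
  -- the subspace of `K` which belongs to `Y`
  let KY : Submodule ℂ K := (Y.map (j : H →ₗ[ℂ] K)).topologicalClosure
  have hKYc : IsClosed (KY : Set K) := Submodule.isClosed_topologicalClosure _
  have : CompleteSpace KY := hKYc.completeSpace_coe
  have hjY : ∀ y ∈ Y, j y ∈ KY := fun y hy =>
    Submodule.le_topologicalClosure _ ⟨y, hy, rfl⟩
  have hKYind : ∀ (Z : Set K), IsClosed Z → (∀ y ∈ Y, j y ∈ Z) → ∀ u ∈ KY, u ∈ Z := by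
    intro Z hZ hZY u hu
    refine closure_minimal ?_ hZ hu
    rintro _ ⟨y, hy, rfl⟩
    exact hZY y hy
  have htY : ∀ u ∈ KY, t u ∈ KY := by
    refine hKYind (t ⁻¹' (KY : Set K)) (hKYc.preimage t.continuous) ?_
    intro y hy
    change j (jp (j y)) ∈ KY
    rw [hjq]
    exact hjY _ (hqY y hy)
  have hbY : ∀ a ∈ A, ∀ b : K →L[ℂ] K, (∀ h, b (j h) = j (a h)) → ∀ u ∈ KY, b u ∈ KY := by
    intro a ha b hb
    refine hKYind (b ⁻¹' (KY : Set K)) (hKYc.preimage b.continuous) ?_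
    intro y hy
    change b (j y) ∈ KY
    rw [hb]
    exact hjY _ (hYA a ha y hy)
  have hjpY : ∀ u ∈ KY, jp u ∈ Y := by
    refine hKYind (jp ⁻¹' (Y : Set H)) (hYc.preimage jp.continuous) ?_
    intro y hy
    change jp (j y) ∈ Y
    rw [hjq]
    exact hqY y hy
  -- the projection
  let Q : K →L[ℂ] K := KY.starProjection
  have hQm : ∀ u, Q u ∈ KY := fun u => Submodule.starProjection_apply_mem KY u
  have hQe : ∀ u ∈ KY, Q u = u := fun u hu => Submodule.starProjection_eq_self_iff.mpr hu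
  have hQs : star Q = Q := isSelfAdjoint_starProjection KY
  have hQt : t * Q = Q * t := by
    have h1 : t * Q = Q * (t * Q) := by
      ext u
      exact (hQe _ (htY _ (hQm u))).symm
    have h2 : star (t * Q) = star (Q * (t * Q)) := by rw [← h1]
    rw [star_mul, star_mul, star_mul, hQs, ht] at h2
    rw [h2, mul_assoc, ← h1]
  obtain ⟨p, n, htpn, hpn, hnp, hps, hns, hp0, hn0, hcomm⟩ := exists_parts ht
  -- the two semidefinite subspaces
  have main : ∀ s : K →L[ℂ] K, star s = s → (∀ a ∈ A, ∀ b : K →L[ℂ] K, (∀ h, b (j h) = j (a h)) →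
      s * b = b * s) → s * Q = Q * s → (t * s = s * s ∨ t * s = - (s * s)) →
      (∀ u, 0 ≤ (⟪s u, u⟫_ℂ).re) → ∀ u ∈ KY, s u = 0 := by
    intro s hs hsc hsQ hts hs0
    have hsY : ∀ u ∈ KY, s u ∈ KY := by
      intro u hu
      have h1 : s u = Q (s u) := by
        calc s u = s (Q u) := by rw [hQe u hu]
          _ = (s * Q) u := rfl
          _ = (Q * s) u := by rw [hsQ]
          _ = Q (s u) := rfl
      rw [h1]
      exact hQm _
    let S : Submodule ℂ H := KY.map ((jp.comp s : K →L[ℂ] H) : K →ₗ[ℂ] H)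
    have hform : ∀ u, fm J (jp (s u)) (jp (s u)) = ⟪s u, (t * s) u⟫_ℂ := fun u => hjp _ _
    have hS : ∀ v ∈ S, ∀ y ∈ Y, fm J v y = 0 := by
      refine hsemi S ?_ ?_ ?_
      · rintro _ ⟨u, hu, rfl⟩
        exact hjpY _ (hsY u hu)
      · rintro a ha _ ⟨u, hu, rfl⟩
        obtain ⟨b, hb⟩ := hact a ha
        refine ⟨b u, hbY a ha b hb u hu, ?_⟩
        change jp (s (b u)) = a (jp (s u))
        rw [hjpa a ha b hb]
        have h1 : s (b u) = b (s u) := by
          calc s (b u) = (s * b) u := rfl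
            _ = (b * s) u := by rw [hsc a ha b hb]
            _ = b (s u) := rfl
        rw [h1]
      · rcases hts with h | h
        · left
          rintro _ ⟨u, hu, rfl⟩
          change 0 ≤ (fm J (jp (s u)) (jp (s u))).re
          rw [hform, h]
          have h1 := hs0 (s u)
          rw [proj_adj hs] at h1
          exact h1
        · right
          rintro _ ⟨u, hu, rfl⟩
          change (fm J (jp (s u)) (jp (s u))).re ≤ 0
          rw [hform, h]
          have h1 := hs0 (s u)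
          rw [proj_adj hs] at h1
          change (⟪s u, - (s (s u))⟫_ℂ).re ≤ 0
          rw [inner_neg_right, Complex.neg_re]
          linarith
    intro u hu
    have h1 : ∀ v ∈ KY, v ∈ {v | ⟪s u, v⟫_ℂ = 0} := by
      refine hKYind _ (isClosed_eq (by fun_prop) continuous_const) ?_
      intro y hy
      change ⟪s u, j y⟫_ℂ = 0
      rw [← hjp]
      exact hS _ ⟨u, hu, rfl⟩ y hy
    exact inner_self_eq_zero.mp (h1 _ (hsY u hu))
  have hp : ∀ u ∈ KY, p u = 0 := main p hps (fun a ha b hb => (hcomm b (htc a ha b hb)).1)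
    (hcomm Q hQt).1 (Or.inl (by rw [htpn, sub_mul, hnp, sub_zero])) hp0
  have hn : ∀ u ∈ KY, n u = 0 := main n hns (fun a ha b hb => (hcomm b (htc a ha b hb)).2)
    (hcomm Q hQt).2 (Or.inr (by rw [htpn, sub_mul, hpn, zero_sub])) hn0
  have ht0 : ∀ u ∈ KY, t u = 0 := by
    intro u hu
    rw [htpn]
    change p u - n u = 0
    rw [hp u hu, hn u hu, sub_zero]
  have hqq : ∀ y ∈ Y, q (q y) = 0 := by
    intro y hy
    have h1 : j (q y) = 0 := by
      rw [← hjq y]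
      exact ht0 _ (hjY y hy)
    rw [← hjq (q y), h1, map_zero]
  have hR : ∀ v ∈ Y.map (q : H →ₗ[ℂ] H), ∀ y ∈ Y, fm J v y = 0 := by
    refine hsemi _ ?_ ?_ ?_
    · rintro _ ⟨y, hy, rfl⟩
      exact hqY y hy
    · rintro a ha _ ⟨y, hy, rfl⟩
      exact ⟨a y, hYA a ha y hy, hqA a ha y⟩
    · left
      rintro _ ⟨y, hy, rfl⟩
      change 0 ≤ (fm J (q y) (q y)).re
      rw [← hqs, hqq y hy, fm_zero_left, Complex.zero_re]
  intro y hy y' hy'
  exact hR _ ⟨y, hy, rfl⟩ y' hy'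

end Pool.Agent.H25.PH
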