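import Pool.Agent.H25.PH.Tee
import Pool.Agent.H25.PH.PosOn

/-!
Maximal invariant dual pairs in spaces whose negative part is small.
-/

set_option autoImplicit false

open scoped InnerProductSpace ComplexConjugate
open Cardinal Set Pool.Agent.H91.PH

namespace Pool.Agent.H25.PH

variable {H : Type} [NormedAddCommGroup H] [InnerProductSpace ℂ H] [CompleteSpace H]
variable {κ : Cardinal.{0}}

/-- Nonpositive subspaces are small. -/
lemma small_neg {E : H →L[ℂ] H} (hE : E * E = E) (hE' : star E = E) (hκ : ℵ₀ ≤ κ)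
    (hF : Sm κ (range (1 - E : H →L[ℂ] H))) {S : Submodule ℂ H}
    (hS : ∀ x ∈ S, (fm (Jm E) x x).re ≤ 0) : Sm κ (S : Set H) := by
  refine Sm.of_lipschitz hκ (f := fun x => (1 - E) x) (C := 2)
    (hF.mono (by rintro _ ⟨x, _, rfl⟩; exact ⟨x, rfl⟩)) ?_
  intro x hx y hy
  rw [dist_eq_norm, dist_eq_norm, ← map_sub]
  set z := x - y with hz
  have h1 := hS z (S.sub_mem hx hy)
  rw [re_fm_Jm hE hE'] at h1
  have h2 : ‖E z‖ ≤ ‖(1 - E) z‖ :=
    le_of_pow_le_pow_left₀ two_ne_zero (norm_nonneg _) (by linarith)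
  calc ‖z‖ = ‖E z + (1 - E) z‖ := by rw [E_add_F]
    _ ≤ ‖E z‖ + ‖(1 - E) z‖ := norm_add_le _ _
    _ ≤ 2 * ‖(1 - E) z‖ := by linarith

/-- If the orthogonal complement of a small set in a closed subspace is small, then the subspace is
small. -/
lemma small_cut (hκ : ℵ₀ ≤ κ) {Y : Submodule ℂ H} (hY : IsClosed (Y : Set H)) {g : H →L[ℂ] H}
    {L : Set H} (hL : Sm κ L) (hW : Sm κ {x : H | x ∈ Y ∧ ∀ l ∈ L, ⟪x, g l⟫_ℂ = 0}) :
    Sm κ (Y : Set H) := by
  have : CompleteSpace Y := hY.completeSpace_coe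
  let Q : H →L[ℂ] H := Y.starProjection
  have hQm : ∀ u, Q u ∈ Y := fun u => Submodule.starProjection_apply_mem Y u
  have hQe : ∀ u ∈ Y, Q u = u := fun u hu => Submodule.starProjection_eq_self_iff.mpr hu
  have hQs : star Q = Q := isSelfAdjoint_starProjection Y
  let C : Submodule ℂ H := (Submodule.span ℂ ((fun l => Q (g l)) '' L)).topologicalClosure
  have hC : IsClosed (C : Set H) := Submodule.isClosed_topologicalClosure _
  have : CompleteSpace C := hC.completeSpace_coe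
  have hCY : C ≤ Y := by
    refine Submodule.topologicalClosure_minimal _ (Submodule.span_le.mpr ?_) hY
    rintro _ ⟨l, _, rfl⟩
    exact hQm _
  have h1 : Sm κ (C : Set H) := (hL.image (f := fun l => Q (g l)) (by fun_prop)).span hκ
  refine Sm.sum hκ h1 hW ?_
  intro x hx
  refine ⟨C.starProjection x, Submodule.starProjection_apply_mem C x, x - C.starProjection x,
    ⟨?_, ?_⟩, by abel⟩
  · exact Y.sub_mem hx (hCY (Submodule.starProjection_apply_mem C x))
  · intro l hl
    have h2 : x - C.starProjection x ∈ Cᗮ := Submodule.sub_starProjection_mem_orthogonal x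
    have h3 : x - C.starProjection x ∈ Y :=
      Y.sub_mem hx (hCY (Submodule.starProjection_apply_mem C x))
    have h4 : Q (g l) ∈ C :=
      Submodule.le_topologicalClosure _ (Submodule.subset_span ⟨l, hl, rfl⟩)
    have h5 : ⟪x - C.starProjection x, Q (g l)⟫_ℂ = 0 := by
      rw [← inner_conj_symm, (Submodule.mem_orthogonal _ _).mp h2 _ h4, map_zero]
    rw [← proj_adj hQs, hQe _ h3] at h5
    exact h5

/-- If all semidefinite invariant subspaces of the orthogonal complement of an invariant subspace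
are isotropic, then this orthogonal complement is small. -/
theorem small_resid {E : H →L[ℂ] H} (hE : E * E = E) (hE' : star E = E)
    {A : Subalgebra ℂ (H →L[ℂ] H)} (hc : Comm A) (hA : Symm (Jm E) A) (hκ : ℵ₀ ≤ κ)
    (hF : Sm κ (range (1 - E : H →L[ℂ] H))) {X : Submodule ℂ H}
    (hX : ∀ a ∈ A, ∀ x ∈ X, a x ∈ X)
    (hsemi : ∀ S : Submodule ℂ H, S ≤ perp (Jm E) X → (∀ a ∈ A, ∀ v ∈ S, a v ∈ S) →
      ((∀ v ∈ S, 0 ≤ (fm (Jm E) v v).re) ∨ (∀ v ∈ S, (fm (Jm E) v v).re ≤ 0)) →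
      ∀ v ∈ S, ∀ y ∈ perp (Jm E) X, fm (Jm E) v y = 0) :
    Sm κ (perp (Jm E) X : Set H) := by
  classical
  have hG := herm_Jm hE hE'
  set Y := perp (Jm E) X with hYdef
  have hYc : IsClosed (Y : Set H) := perp_closed _ _
  have hYA : ∀ a ∈ A, ∀ y ∈ Y, a y ∈ Y := perp_inv hG hA hX
  by_cases hB : ∃ y₀ ∈ Y, ¬ Sm κ {z : H | ∃ a ∈ A, z = a y₀}
  · exfalso
    obtain ⟨y₀, hy₀, hns⟩ := hB
    obtain ⟨T, hTA, hTs, hTp, hT0, hTX⟩ := exists_tee hE hE' hc hA hκ hF hns
    have hTY : ∀ y ∈ Y, T y ∈ Y := by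
      intro y hy x hx
      rw [← hTs]
      exact hTX X Y hX hYA (fun x hx y hy => hy x hx) x hx y hy
    have h1 := pos_on hE hE' hA hYc hYA hsemi hTA hTs hTp hTY y₀ hy₀ y₀ hy₀
    rw [h1] at hT0
    exact lt_irrefl _ hT0
  · push Not at hB
    have : CompleteSpace Y := hYc.completeSpace_coe
    let Q : H →L[ℂ] H := Y.starProjection
    have hQm : ∀ u, Q u ∈ Y := fun u => Submodule.starProjection_apply_mem Y u
    have hQe : ∀ u ∈ Y, Q u = u := fun u hu => Submodule.starProjection_eq_self_iff.mpr hu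
    have hQs : star Q = Q := isSelfAdjoint_starProjection Y
    have hQQ : Q * Q = Q := by
      ext u
      exact hQe _ (hQm u)
    have hJs : star (Jm E) = Jm E := Jm_star hE'
    let t : H →L[ℂ] H := Q * Jm E * Q
    have ht : star t = t := by
      change star (Q * Jm E * Q) = Q * Jm E * Q
      rw [star_mul, star_mul, hQs, hJs, mul_assoc]
    have hQt : t * Q = Q * t := by
      change Q * Jm E * Q * Q = Q * (Q * Jm E * Q)
      rw [mul_assoc (Q * Jm E), hQQ, ← mul_assoc, ← mul_assoc, hQQ]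
    obtain ⟨p, n, htpn, hpn, hnp, hps, hns, hp0, hn0, hcomm⟩ := exists_parts ht
    have hnQ := (hcomm Q hQt).2
    have hnY : ∀ u ∈ Y, n u ∈ Y := by
      intro u hu
      have h1 : n u = Q (n u) := by
        calc n u = n (Q u) := by rw [hQe u hu]
          _ = (n * Q) u := rfl
          _ = (Q * n) u := by rw [hnQ]
          _ = Q (n u) := rfl
      rw [h1]
      exact hQm _
    have htJ : ∀ x ∈ Y, ∀ y ∈ Y, ⟪t x, y⟫_ℂ = ⟪Jm E x, y⟫_ℂ := by
      intro x hx y hy
      change ⟪Q (Jm E (Q x)), y⟫_ℂ = _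
      rw [proj_adj hQs, hQe x hx, hQe y hy]
    -- the negative part
    let M : Submodule ℂ H := Y.map (n : H →ₗ[ℂ] H)
    have hMY : M ≤ Y := by
      rintro _ ⟨u, hu, rfl⟩
      exact hnY u hu
    have hMneg : ∀ x ∈ M, (fm (Jm E) x x).re ≤ 0 := by
      rintro _ ⟨u, hu, rfl⟩
      change (⟪Jm E (n u), n u⟫_ℂ).re ≤ 0
      rw [← htJ _ (hnY u hu) _ (hnY u hu), htpn]
      have h1 : (p - n) (n u) = - n (n u) := by
        change p (n u) - n (n u) = _
        have h2 : p (n u) = 0 := by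
          calc p (n u) = (p * n) u := rfl
            _ = 0 := by rw [hpn]; rfl
        rw [h2, zero_sub]
      rw [h1, inner_neg_left, Complex.neg_re]
      linarith [hn0 (n u)]
    obtain ⟨D, hDM, hDκ, hDd⟩ := (small_neg hE hE' hκ hF hMneg).exists_dense hκ
    have hL : Sm κ (⋃ d : D, {z : H | ∃ a ∈ A, z = a d}) :=
      Sm.iUnion hκ hDκ fun d => hB d (hMY (hDM d.2))
    refine small_cut hκ hYc (g := Jm E) hL ?_
    -- the orthogonal complement
    let W : Submodule ℂ H :=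
      { carrier := {x | x ∈ Y ∧ ∀ l ∈ ⋃ d : D, {z : H | ∃ a ∈ A, z = a d}, ⟪x, Jm E l⟫_ℂ = 0}
        add_mem' := by
          rintro x y ⟨hx1, hx2⟩ ⟨hy1, hy2⟩
          refine ⟨Y.add_mem hx1 hy1, fun l hl => ?_⟩
          rw [inner_add_left, hx2 l hl, hy2 l hl, add_zero]
        zero_mem' := ⟨Y.zero_mem, fun l _ => inner_zero_left _⟩
        smul_mem' := by
          rintro c x ⟨hx1, hx2⟩
          refine ⟨Y.smul_mem c hx1, fun l hl => ?_⟩
          rw [inner_smul_left, hx2 l hl, mul_zero] }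
    have hWY : W ≤ Y := fun x hx => hx.1
    have hWd : ∀ x ∈ W, ∀ d ∈ D, ∀ a ∈ A, fm (Jm E) x (a d) = 0 := by
      intro x hx d hd a ha
      change ⟪Jm E x, a d⟫_ℂ = 0
      rw [Jm_adj hE']
      exact hx.2 _ (mem_iUnion.mpr ⟨⟨d, hd⟩, a, ha, rfl⟩)
    have hWA : ∀ a ∈ A, ∀ x ∈ W, a x ∈ W := by
      intro b hb x hx
      refine ⟨hYA b hb x hx.1, ?_⟩
      intro l hl
      obtain ⟨d, a, ha, rfl⟩ := mem_iUnion.mp hl
      obtain ⟨b', hb', hbb⟩ := hA b hb
      rw [← Jm_adj hE']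
      change fm (Jm E) (b x) (a d) = 0
      rw [hbb]
      exact hWd x hx d d.2 (b' * a) (A.mul_mem hb' ha)
    have hWpos : ∀ x ∈ W, 0 ≤ (fm (Jm E) x x).re := by
      intro x hx
      have hxY := hWY hx
      have h1 : ∀ m ∈ M, fm (Jm E) x m = 0 := by
        intro m hm
        have h2 : D ⊆ {m | fm (Jm E) x m = 0} := fun d hd => hWd x hx d hd 1 A.one_mem
        have h3 : IsClosed {m : H | fm (Jm E) x m = 0} :=
          isClosed_eq (continuous_fm_right x) continuous_const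
        exact closure_minimal h2 h3 (hDd hm)
      have htx : t x ∈ Y := hQm _
      have h2 : n (t x) = 0 := by
        have h3 : ⟪n (t x), n (t x)⟫_ℂ = 0 := by
          have h4 := h1 (n (n (t x))) ⟨n (t x), hnY _ htx, rfl⟩
          change ⟪Jm E x, n (n (t x))⟫_ℂ = 0 at h4
          rw [← htJ x hxY _ (hnY _ (hnY _ htx)), ← proj_adj hns] at h4
          exact h4
        exact inner_self_eq_zero.mp h3
      have h3 : n (n x) = 0 := by
        have h4 : n (t x) = - n (n x) := by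
          calc n (t x) = (n * t) x := rfl
            _ = (n * (p - n)) x := by rw [← htpn]
            _ = (- (n * n)) x := by rw [mul_sub, hnp, zero_sub]
            _ = - n (n x) := rfl
        rw [h2] at h4
        exact neg_eq_zero.mp h4.symm
      have h4 : n x = 0 := by
        have h5 : ⟪n x, n x⟫_ℂ = 0 := by
          rw [proj_adj hns, h3, inner_zero_right]
        exact inner_self_eq_zero.mp h5
      change 0 ≤ (⟪Jm E x, x⟫_ℂ).re
      rw [← htJ x hxY x hxY, htpn]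
      have h5 : (p - n) x = p x := by
        change p x - n x = p x
        rw [h4, sub_zero]
      rw [h5]
      exact hp0 x
    have hW0 := hsemi W hWY hWA (Or.inl hWpos)
    exact small_neg hE hE' hκ hF (S := W) fun x hx => by
      rw [hW0 x hx x (hWY hx), Complex.zero_re]

/-- Semidefinite invariant subspaces which are orthogonal to a maximal invariant dual pair are
isotropic. -/
lemma maxDual_semi {E : H →L[ℂ] H} (hE : E * E = E) (hE' : star E = E)
    {A : Subalgebra ℂ (H →L[ℂ] H)} {N P : Submodule ℂ H} (h : MaxDual (Jm E) A N P)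
    (S : Submodule ℂ H) (hS : S ≤ perp (Jm E) (N ⊔ P)) (hSA : ∀ a ∈ A, ∀ v ∈ S, a v ∈ S)
    (hs : (∀ v ∈ S, 0 ≤ (fm (Jm E) v v).re) ∨ (∀ v ∈ S, (fm (Jm E) v v).re ≤ 0)) :
    ∀ v ∈ S, ∀ y ∈ perp (Jm E) (N ⊔ P), fm (Jm E) v y = 0 := by
  have hG := herm_Jm hE hE'
  have hN : ∀ x ∈ S, ∀ y ∈ N, fm (Jm E) y x = 0 := fun x hx y hy =>
    hS hx y (Submodule.mem_sup_left hy)
  have hP : ∀ x ∈ S, ∀ y ∈ P, fm (Jm E) y x = 0 := fun x hx y hy =>
    hS hx y (Submodule.mem_sup_right hy)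
  have hN' : ∀ x ∈ S, ∀ y ∈ N, fm (Jm E) x y = 0 := fun x hx y hy => hG.eq_zero (hN x hx y hy)
  have hP' : ∀ x ∈ S, ∀ y ∈ P, fm (Jm E) x y = 0 := fun x hx y hy => hG.eq_zero (hP x hx y hy)
  have hinv : ∀ R : Submodule ℂ H, (∀ a ∈ A, ∀ v ∈ R, a v ∈ R) → ∀ a ∈ A, ∀ v ∈ R ⊔ S,
      a v ∈ R ⊔ S := by
    intro R hR a ha x hx
    obtain ⟨n, hn, d, hd, rfl⟩ := Submodule.mem_sup.mp hx
    rw [map_add]
    exact Submodule.add_mem_sup (hR a ha n hn) (hSA a ha d hd)
  rcases hs with hs | hs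
  · have h1 : Dual (Jm E) A N (P ⊔ S) := by
      refine ⟨?_, h.neg, ?_, h.invN, hinv P h.invP⟩
      · intro x hx
        obtain ⟨p, hp, d, hd, rfl⟩ := Submodule.mem_sup.mp hx
        rw [fm_add_left, fm_add_right, fm_add_right, hP d hd p hp, hP' d hd p hp, add_zero,
          zero_add, Complex.add_re]
        exact add_nonneg (h.pos p hp) (hs d hd)
      · intro x hx y hy
        obtain ⟨p, hp, d, hd, rfl⟩ := Submodule.mem_sup.mp hx
        rw [fm_add_left, h.orth p hp y hy, hN' d hd y hy, add_zero]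
    have h2 := (h.max N (P ⊔ S) le_rfl le_sup_left h1).2
    intro v hv y hy
    exact hy v (Submodule.mem_sup_right (h2 (Submodule.mem_sup_right hv)))
  · have h1 : Dual (Jm E) A (N ⊔ S) P := by
      refine ⟨h.pos, ?_, ?_, hinv N h.invN, h.invP⟩
      · intro x hx
        obtain ⟨p, hp, d, hd, rfl⟩ := Submodule.mem_sup.mp hx
        rw [fm_add_left, fm_add_right, fm_add_right, hN d hd p hp, hN' d hd p hp, add_zero,
          zero_add, Complex.add_re]
        exact add_nonpos (h.neg p hp) (hs d hd)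
      · intro x hx y hy
        obtain ⟨n, hn, d, hd, rfl⟩ := Submodule.mem_sup.mp hy
        rw [fm_add_right, h.orth x hx n hn, hP d hd x hx, add_zero]
    have h2 := (h.max (N ⊔ S) P le_sup_left le_rfl h1).1
    intro v hv y hy
    exact hy v (Submodule.mem_sup_left (h2 (Submodule.mem_sup_right hv)))

/-- The orthogonal complement of the nonnegative subspace of a maximal invariant dual pair is
small. -/
theorem maxDual_small {E : H →L[ℂ] H} (hE : E * E = E) (hE' : star E = E)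
    {A : Subalgebra ℂ (H →L[ℂ] H)} (hc : Comm A) (hA : Symm (Jm E) A) (hκ : ℵ₀ ≤ κ)
    (hF : Sm κ (range (1 - E : H →L[ℂ] H))) {N P : Submodule ℂ H} (h : MaxDual (Jm E) A N P) :
    Sm κ (perp (Jm E) P : Set H) := by
  have hG := herm_Jm hE hE'
  have hX : ∀ a ∈ A, ∀ x ∈ N ⊔ P, a x ∈ N ⊔ P := by
    intro a ha x hx
    obtain ⟨n, hn, d, hd, rfl⟩ := Submodule.mem_sup.mp hx
    rw [map_add]
    exact Submodule.add_mem_sup (h.invN a ha n hn) (h.invP a ha d hd)
  have h1 := small_resid hE hE' hc hA hκ hF hX (maxDual_semi hE hE' h)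
  have h2 := small_neg hE hE' hκ hF (S := N) h.neg
  refine small_cut hκ (perp_closed _ _) (g := Jm E) h2 (h1.mono ?_)
  rintro x ⟨hx, hx'⟩ y hy
  obtain ⟨n, hn, p, hp, rfl⟩ := Submodule.mem_sup.mp hy
  have h3 : fm (Jm E) n x = 0 := by
    refine hG.eq_zero ?_
    change ⟪Jm E x, n⟫_ℂ = 0
    rw [Jm_adj hE']
    exact hx' n hn
  rw [fm_add_left, h3, hx p hp, add_zero]

end Pool.Agent.H25.PH
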