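import Mathlib

/-!
Subsets of small density character.
-/

set_option autoImplicit false

open Cardinal Set

namespace Pool.Agent.H25.PH

section metric

variable {X : Type} [PseudoMetricSpace X] {κ : Cardinal.{0}}

/-- `S` is contained in the closure of a set of cardinality at most `κ`. -/
def Sm (κ : Cardinal.{0}) (S : Set X) : Prop := ∃ D : Set X, #D ≤ κ ∧ S ⊆ closure D

lemma Sm.mono {S S' : Set X} (h : Sm κ S') (hs : S ⊆ S') : Sm κ S := by
  obtain ⟨D, h1, h2⟩ := h
  exact ⟨D, h1, hs.trans h2⟩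

lemma Sm.closure {S : Set X} (h : Sm κ S) : Sm κ (closure S) := by
  obtain ⟨D, h1, h2⟩ := h
  exact ⟨D, h1, closure_minimal h2 isClosed_closure⟩

lemma Sm.of_card {S : Set X} (h : #S ≤ κ) : Sm κ S := ⟨S, h, subset_closure⟩

lemma card_iUnion_le (hκ : ℵ₀ ≤ κ) {α ι : Type} (hι : #ι ≤ κ) (f : ι → Set α)
    (hf : ∀ i, #(f i) ≤ κ) : #(⋃ i, f i) ≤ κ := by
  refine (mk_iUnion_le f).trans ?_
  calc #ι * ⨆ i, #(f i) ≤ κ * κ := by
        refine mul_le_mul' hι ?_
        exact ciSup_le' hf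
    _ = κ := mul_eq_self hκ

lemma Sm.iUnion (hκ : ℵ₀ ≤ κ) {ι : Type} (hι : #ι ≤ κ) {S : ι → Set X}
    (h : ∀ i, Sm κ (S i)) : Sm κ (⋃ i, S i) := by
  choose D h1 h2 using h
  refine ⟨⋃ i, D i, card_iUnion_le hκ hι D h1, ?_⟩
  refine iUnion_subset fun i => (h2 i).trans ?_
  exact closure_mono (subset_iUnion D i)

/-- The dense set can be chosen in `S`. -/
lemma Sm.exists_dense (hκ : ℵ₀ ≤ κ) {S : Set X} (h : Sm κ S) :
    ∃ D : Set X, D ⊆ S ∧ #D ≤ κ ∧ S ⊆ _root_.closure D := by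
  classical
  obtain ⟨D, h1, h2⟩ := h
  let I : Type := {q : D × ℕ // ∃ s ∈ S, dist s (q.1 : X) < 1 / ((q.2 : ℝ) + 1)}
  choose f hf1 hf2 using fun q : I => q.2
  have hI : #I ≤ κ := by
    refine (mk_subtype_le _).trans ?_
    rw [mk_prod, lift_id, lift_id]
    calc #D * #ℕ ≤ κ * κ := mul_le_mul' h1 (by rw [mk_nat]; exact hκ)
      _ = κ := mul_eq_self hκ
  refine ⟨range f, ?_, mk_range_le.trans hI, ?_⟩
  · rintro _ ⟨q, rfl⟩
    exact hf1 q
  · intro s hs
    rw [Metric.mem_closure_iff]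
    intro ε hε
    obtain ⟨n, hn⟩ := exists_nat_one_div_lt (half_pos hε)
    have h0 : (0 : ℝ) < 1 / ((n : ℝ) + 1) := by positivity
    obtain ⟨d, hd, hsd⟩ := Metric.mem_closure_iff.mp (h2 hs) _ h0
    let q : I := ⟨(⟨d, hd⟩, n), s, hs, hsd⟩
    refine ⟨f q, ⟨q, rfl⟩, ?_⟩
    have h3 : dist (f q) d < 1 / ((n : ℝ) + 1) := hf2 q
    calc dist s (f q) ≤ dist s d + dist (f q) d := dist_triangle_right _ _ _
      _ < 1 / ((n : ℝ) + 1) + 1 / ((n : ℝ) + 1) := add_lt_add hsd h3
      _ < ε / 2 + ε / 2 := add_lt_add hn hn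
      _ = ε := by ring

lemma Sm.image {Y : Type} [PseudoMetricSpace Y] {S : Set X} (h : Sm κ S) {f : X → Y}
    (hf : Continuous f) : Sm κ (f '' S) := by
  obtain ⟨D, h1, h2⟩ := h
  refine ⟨f '' D, mk_image_le.trans h1, ?_⟩
  exact (image_mono h2).trans (image_closure_subset_closure_image hf)

/-- A set with a map onto a small set whose inverse is Lipschitz is small. -/
lemma Sm.of_lipschitz (hκ : ℵ₀ ≤ κ) {Y : Type} [PseudoMetricSpace Y] {S : Set X} {f : X → Y}
    (h : Sm κ (f '' S)) {C : ℝ} (hC : ∀ x ∈ S, ∀ y ∈ S, dist x y ≤ C * dist (f x) (f y)) :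
    Sm κ S := by
  classical
  obtain ⟨D, h1, h2, h3⟩ := h.exists_dense hκ
  choose g hg1 hg2 using fun d : D => h1 d.2
  refine ⟨range g, mk_range_le.trans h2, ?_⟩
  intro s hs
  rw [Metric.mem_closure_iff]
  intro ε hε
  have h0 : 0 < ε / (|C| + 1) := by positivity
  obtain ⟨d, hd, hsd⟩ := Metric.mem_closure_iff.mp (h3 ⟨s, hs, rfl⟩) _ h0
  refine ⟨g ⟨d, hd⟩, ⟨_, rfl⟩, ?_⟩
  have h4 := hC s hs _ (hg1 ⟨d, hd⟩)
  rw [hg2 ⟨d, hd⟩] at h4
  have h5 : 0 ≤ dist (f s) d := dist_nonneg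
  calc dist s (g ⟨d, hd⟩) ≤ C * dist (f s) d := h4
    _ ≤ (|C| + 1) * dist (f s) d := by
        have := le_abs_self C
        gcongr
        linarith
    _ < (|C| + 1) * (ε / (|C| + 1)) := by gcongr
    _ = ε := by field_simp

/-- A set which is not small contains a large separated set. -/
lemma exists_sep (hκ : ℵ₀ ≤ κ) {S : Set X} (h : ¬ Sm κ S) :
    ∃ δ : ℝ, 0 < δ ∧ ∃ I : Set X, I ⊆ S ∧ κ < #I ∧ ∀ x ∈ I, ∀ y ∈ I, x ≠ y → δ ≤ dist x y := by
  classical
  by_contra hcon
  push Not at hcon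
  apply h
  have key : ∀ n : ℕ, ∃ I : Set X, #I ≤ κ ∧ ∀ s ∈ S, ∃ x ∈ I, dist s x < 1 / ((n : ℝ) + 1) := by
    intro n
    have h0 : (0 : ℝ) < 1 / ((n : ℝ) + 1) := by positivity
    obtain ⟨I, hI⟩ := zorn_subset {I : Set X | I ⊆ S ∧ ∀ x ∈ I, ∀ y ∈ I, x ≠ y →
        1 / ((n : ℝ) + 1) ≤ dist x y} (by
      intro c hcs hc
      refine ⟨⋃₀ c, ⟨sUnion_subset fun I hI => (hcs hI).1, ?_⟩, fun I hI =>
        subset_sUnion_of_mem hI⟩
      rintro x ⟨I, hI, hx⟩ y ⟨I', hI', hy⟩ hxy
      rcases hc.total hI hI' with h | h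
      · exact (hcs hI').2 x (h hx) y hy hxy
      · exact (hcs hI).2 x hx y (h hy) hxy)
    refine ⟨I, ?_, ?_⟩
    · by_contra hlt
      push Not at hlt
      obtain ⟨x, hx, y, hy, hne, hd⟩ := hcon _ h0 I hI.prop.1 hlt
      exact absurd (hI.prop.2 x hx y hy hne) (not_le.mpr hd)
    · intro s hs
      by_contra hno
      push Not at hno
      have hsI : s ∉ I := by
        intro hsI
        have := hno s hsI
        rw [dist_self] at this
        linarith
      have h2 : insert s I ⊆ I := hI.le_of_ge (y := insert s I) (by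
        refine ⟨insert_subset hs hI.prop.1, ?_⟩
        intro x hx y hy hxy
        rcases hx with rfl | hx
        · rcases hy with rfl | hy
          · exact absurd rfl hxy
          · exact hno y hy
        · rcases hy with rfl | hy
          · rw [dist_comm]
            exact hno x hx
          · exact hI.prop.2 x hx y hy hxy) (subset_insert s I)
      exact hsI (h2 (mem_insert s I))
  choose I h1 h2 using key
  refine ⟨⋃ n, I n, card_iUnion_le hκ (by rw [mk_nat]; exact hκ) I h1, ?_⟩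
  intro s hs
  rw [Metric.mem_closure_iff]
  intro ε hε
  obtain ⟨n, hn⟩ := exists_nat_one_div_lt hε
  obtain ⟨x, hx, hsx⟩ := h2 n s hs
  exact ⟨x, mem_iUnion.mpr ⟨n, hx⟩, hsx.trans hn⟩

/-- One of the fibres of a map from a large set to a set which is not large is large. -/
lemma exists_fibre (hκ : ℵ₀ ≤ κ) {α ι : Type} (hι : #ι ≤ κ) {I : Set α} (hI : κ < #I)
    (f : α → ι) : ∃ i, κ < #{x : α | x ∈ I ∧ f x = i} := by
  by_contra hcon
  push Not at hcon
  have h1 : I ⊆ ⋃ i, {x : α | x ∈ I ∧ f x = i} := fun x hx => mem_iUnion.mpr ⟨f x, hx, rfl⟩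
  have h2 := (mk_le_mk_of_subset h1).trans (card_iUnion_le hκ hι _ hcon)
  exact absurd hI (not_lt.mpr h2)

/-- A large index set contains a large one on which finitely many maps to a small set are almost
constant. -/
lemma exists_close (hκ : ℵ₀ ≤ κ) {S : Set X} (h : Sm κ S) {α β : Type} (φ : β → α → X)
    (hφ : ∀ b a, φ b a ∈ S) {I : Set α} (hI : κ < #I) {ε : ℝ} (hε : 0 < ε) (F : Finset β) :
    ∃ J ⊆ I, κ < #J ∧ ∀ b ∈ F, ∀ x ∈ J, ∀ y ∈ J, dist (φ b x) (φ b y) < ε := by
  classical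
  induction F using Finset.induction_on with
  | empty => exact ⟨I, le_rfl, hI, by simp⟩
  | insert b F _ ih =>
    obtain ⟨J, hJ1, hJ2, hJ3⟩ := ih
    obtain ⟨D, h1, h2⟩ := h
    have h3 : ∀ a : α, ∃ d : D, dist (φ b a) d < ε / 2 := by
      intro a
      obtain ⟨d, hd, hd'⟩ := Metric.mem_closure_iff.mp (h2 (hφ b a)) _ (half_pos hε)
      exact ⟨⟨d, hd⟩, hd'⟩
    choose f hf using h3
    obtain ⟨d, hd⟩ := exists_fibre hκ h1 hJ2 f
    refine ⟨_, fun x hx => hJ1 hx.1, hd, ?_⟩
    intro c hc x hx y hy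
    rw [Finset.mem_insert] at hc
    rcases hc with rfl | hc
    · have h4 := hf x
      have h5 := hf y
      rw [hx.2] at h4
      rw [hy.2] at h5
      calc dist (φ c x) (φ c y) ≤ dist (φ c x) d + dist (φ c y) d := dist_triangle_right _ _ _
        _ < ε / 2 + ε / 2 := add_lt_add h4 h5
        _ = ε := by ring
    · exact hJ3 c hc x hx.1 y hy.1

end metric

section span

variable {H : Type} [NormedAddCommGroup H] [NormedSpace ℂ H] {κ : Cardinal.{0}}

lemma Sm.span (hκ : ℵ₀ ≤ κ) {S : Set H} (h : Sm κ S) :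
    Sm κ ((Submodule.span ℂ S).topologicalClosure : Set H) := by
  classical
  obtain ⟨D, h1, h2⟩ := h
  let g : D × ℕ → H := fun q => TopologicalSpace.denseSeq ℂ q.2 • (q.1 : H)
  let R : AddSubmonoid H := AddSubmonoid.closure (range g)
  have hR : #(R : Set H) ≤ κ := by
    have h3 : #(range g) ≤ κ := by
      refine mk_range_le.trans ?_
      rw [mk_prod, lift_id, lift_id]
      calc #D * #ℕ ≤ κ * κ := mul_le_mul' h1 (by rw [mk_nat]; exact hκ)
        _ = κ := mul_eq_self hκ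
    have h4 : (R : Set H) ⊆ range (fun l : List (range g) => (l.map Subtype.val).sum) := by
      intro x hx
      obtain ⟨l, hl, rfl⟩ := AddSubmonoid.exists_list_of_mem_closure hx
      refine ⟨l.attach.map (fun y => ⟨y.1, hl y.1 y.2⟩), ?_⟩
      simp [List.map_map, Function.comp_def]
    refine (mk_le_mk_of_subset h4).trans (mk_range_le.trans ((mk_list_le_max _).trans ?_))
    exact max_le hκ h3
  have hT : ∀ d ∈ D, ∀ c : ℂ, c • d ∈ R.topologicalClosure := by
    intro d hd c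
    have h3 : c ∈ _root_.closure (range (TopologicalSpace.denseSeq ℂ)) :=
      TopologicalSpace.denseRange_denseSeq ℂ c
    have h4 : Continuous fun z : ℂ => z • d := by fun_prop
    have h5 : (fun z : ℂ => z • d) c ∈ _root_.closure ((fun z : ℂ => z • d) ''
        range (TopologicalSpace.denseSeq ℂ)) :=
      image_closure_subset_closure_image h4 ⟨c, h3, rfl⟩
    refine closure_mono ?_ h5
    rintro _ ⟨_, ⟨n, rfl⟩, rfl⟩
    exact AddSubmonoid.subset_closure ⟨(⟨d, hd⟩, n), rfl⟩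
  have hsm : ∀ c : ℂ, ∀ x ∈ R.topologicalClosure, c • x ∈ R.topologicalClosure := by
    intro c x hx
    have h3 : (R : Set H) ⊆ (fun y => c • y) ⁻¹' (R.topologicalClosure : Set H) := by
      intro y hy
      change c • y ∈ R.topologicalClosure
      refine AddSubmonoid.closure_induction (motive := fun y _ => c • y ∈ R.topologicalClosure)
        ?_ ?_ ?_ hy
      · rintro _ ⟨q, rfl⟩
        change c • (_ • (q.1 : H)) ∈ _
        rw [smul_smul]
        exact hT _ q.1.2 _
      · rw [smul_zero]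
        exact zero_mem _
      · intro a b _ _ ha hb
        rw [smul_add]
        exact add_mem ha hb
    have h4 : IsClosed ((fun y : H => c • y) ⁻¹' (R.topologicalClosure : Set H)) :=
      R.isClosed_topologicalClosure.preimage (by fun_prop)
    exact closure_minimal h3 h4 hx
  let V : Submodule ℂ H :=
    { carrier := R.topologicalClosure
      add_mem' := fun ha hb => add_mem ha hb
      zero_mem' := zero_mem _
      smul_mem' := fun c x hx => hsm c x hx }
  have hV : IsClosed (V : Set H) := R.isClosed_topologicalClosure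
  have hDV : D ⊆ V := by
    intro d hd
    have := hT d hd 1
    rwa [one_smul] at this
  have hSV : Submodule.span ℂ S ≤ V := Submodule.span_le.mpr
    (h2.trans (closure_minimal hDV hV))
  refine ⟨R, hR, ?_⟩
  have h5 : (Submodule.span ℂ S).topologicalClosure ≤ V :=
    Submodule.topologicalClosure_minimal _ hSV hV
  exact h5

lemma Sm.sum (hκ : ℵ₀ ≤ κ) {S S' T : Set H} (h : Sm κ S) (h' : Sm κ S')
    (hT : ∀ x ∈ T, ∃ a ∈ S, ∃ b ∈ S', x = a + b) : Sm κ T := by
  have h1 : Sm κ (S ∪ S') := by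
    have h2 : Sm κ (⋃ b : Bool, cond b S S') :=
      Sm.iUnion hκ (by rw [mk_bool]; exact (Cardinal.ofNat_lt_aleph0).le.trans hκ)
        (by rintro (_ | _); exacts [h', h])
    refine h2.mono ?_
    rintro x (hx | hx)
    · exact mem_iUnion.mpr ⟨true, hx⟩
    · exact mem_iUnion.mpr ⟨false, hx⟩
  refine (h1.span hκ).mono ?_
  intro x hx
  obtain ⟨a, ha, b, hb, rfl⟩ := hT x hx
  refine Submodule.le_topologicalClosure _ (Submodule.add_mem _ ?_ ?_)
  · exact Submodule.subset_span (Or.inl ha)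
  · exact Submodule.subset_span (Or.inr hb)

end span

end Pool.Agent.H25.PH
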