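import Pool.Agent.H91.PH.Term
import Pool.Agent.H91.PH.MeanEx
import Pool.Agent.H25.PH.Small

/-!
A positive operator which commutes with the algebra, obtained as a limit of squares of differences
of elements of the algebra.
-/

set_option autoImplicit false

open scoped InnerProductSpace ComplexConjugate Topology
open Filter Cardinal Set Pool.Agent.H91.PH

namespace Pool.Agent.H25.PH

/-- The limit along an ultrafilter is a mean. -/
noncomputable def umean {ι : Type*} (ω : Ultrafilter ι) : Mean ι where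
  M := fun φ => ulim ω φ
  add := by
    intro φ ψ K L hφ hψ
    have h1 := tendsto_ulim ω hφ
    have h2 := tendsto_ulim ω hψ
    have h3 := tendsto_ulim ω (f := fun s => φ s + ψ s) (K := K + L) fun s =>
      (norm_add_le _ _).trans (add_le_add (hφ s) (hψ s))
    exact tendsto_nhds_unique h3 (h1.add h2)
  smul := by
    intro c φ K hφ
    have h1 := tendsto_ulim ω hφ
    have h3 := tendsto_ulim ω (f := fun s => c * φ s) (K := ‖c‖ * K) fun s => by
      rw [norm_mul]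
      have := hφ s
      gcongr
    exact tendsto_nhds_unique h3 (h1.const_mul c)
  bound := by
    intro φ K hφ
    exact le_of_tendsto (tendsto_ulim ω hφ).norm (Eventually.of_forall hφ)
  const := by
    intro c
    have h1 := tendsto_ulim ω (f := fun _ => c) (K := ‖c‖) fun _ => le_rfl
    exact tendsto_nhds_unique h1 tendsto_const_nhds
  pos := by
    intro φ K c hφ hc
    exact ge_of_tendsto ((Complex.continuous_re.tendsto _).comp (tendsto_ulim ω hφ))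
      (Eventually.of_forall hc)

lemma ulim_conj {ι : Type*} (ω : Ultrafilter ι) {φ : ι → ℂ} {K : ℝ} (hφ : ∀ i, ‖φ i‖ ≤ K) :
    ulim ω (fun i => conj (φ i)) = conj (ulim ω φ) := by
  have h1 := tendsto_ulim ω hφ
  have h2 := tendsto_ulim ω (f := fun i => conj (φ i)) (K := K) fun i => by
    rw [RCLike.norm_conj]; exact hφ i
  exact tendsto_nhds_unique h2 ((Complex.continuous_conj.tendsto _).comp h1)

variable {H : Type} [NormedAddCommGroup H] [InnerProductSpace ℂ H] [CompleteSpace H]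

lemma inner_eq_fm {E : H →L[ℂ] H} (hE : E * E = E) (hE' : star E = E) (x y : H) :
    ⟪x, y⟫_ℂ = fm (Jm E) x y + 2 * ⟪(1 - E) x, (1 - E) y⟫_ℂ := by
  have h1 : ⟪x, y⟫_ℂ = ⟪E x, E y⟫_ℂ + ⟪(1 - E) x, (1 - E) y⟫_ℂ := by
    rw [← proj_adj hE' (E x) y, idem_apply hE, ← proj_adj (compl_star hE') ((1 - E) x) y,
      idem_apply (compl_idem hE), ← inner_add_left, E_add_F]
  rw [fm_Jm' hE hE', h1]
  ring

omit [CompleteSpace H] in
lemma exists_diff {E : H →L[ℂ] H} {A : Subalgebra ℂ (H →L[ℂ] H)} {κ : Cardinal.{0}}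
    (hκ : ℵ₀ ≤ κ) (hF : Sm κ (range (1 - E : H →L[ℂ] H))) {y₀ : H}
    (hy : ¬ Sm κ {z : H | ∃ a ∈ A, z = a y₀}) :
    ∃ (δ C : ℝ), 0 < δ ∧ 0 ≤ C ∧ ∀ s : Finset H × ℕ, ∃ Z ∈ A, ‖Z‖ ≤ C ∧ δ ≤ ‖Z y₀‖ ∧
      ∀ x ∈ s.1, ‖(1 - E) (Z x)‖ < 1 / ((s.2 : ℝ) + 1) := by
  classical
  obtain ⟨δ, hδ, I, hI1, hI2, hI3⟩ := exists_sep hκ hy
  choose a ha1 ha2 using fun z : I => hI1 z.2
  have hinj : Function.Injective a := by
    intro z w h
    apply Subtype.ext
    rw [ha2 z, ha2 w, h]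
  have hI' : κ < #(range a) := by
    rw [mk_range_eq a hinj]
    exact hI2
  obtain ⟨n, hn⟩ := exists_fibre hκ (ι := ℕ) (by rw [mk_nat]; exact hκ) hI'
    (fun b => ⌈‖b‖⌉₊)
  refine ⟨δ, 2 * n, hδ, by positivity, ?_⟩
  rintro ⟨F, k⟩
  have h0 : (0 : ℝ) < 1 / ((k : ℝ) + 1) := by positivity
  obtain ⟨J, hJ1, hJ2, hJ3⟩ := exists_close hκ hF (fun (x : H) (b : H →L[ℂ] H) => (1 - E) (b x))
    (fun x b => ⟨b x, rfl⟩) hn h0 F
  have h1 : 1 < #J := (one_lt_aleph0.trans_le hκ).trans hJ2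
  rw [one_lt_iff_nontrivial] at h1
  obtain ⟨⟨b, hb⟩, ⟨c, hc⟩, hbc⟩ := h1
  have hbc' : b ≠ c := fun h => hbc (Subtype.ext h)
  obtain ⟨⟨z, hz⟩, hbn⟩ := hJ1 hb
  obtain ⟨⟨w, hw⟩, hcn⟩ := hJ1 hc
  have hnb : ‖b‖ ≤ n := by
    rw [← hbn]
    exact Nat.le_ceil _
  have hnc : ‖c‖ ≤ n := by
    rw [← hcn]
    exact Nat.le_ceil _
  refine ⟨b - c, ?_, ?_, ?_, ?_⟩
  · rw [← hz, ← hw]
    exact A.sub_mem (ha1 z) (ha1 w)
  · calc ‖b - c‖ ≤ ‖b‖ + ‖c‖ := norm_sub_le _ _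
      _ ≤ n + n := add_le_add hnb hnc
      _ = 2 * n := by ring
  · change δ ≤ ‖b y₀ - c y₀‖
    rw [← hz, ← hw, ← ha2 z, ← ha2 w, ← dist_eq_norm]
    refine hI3 z z.2 w w.2 ?_
    intro h
    apply hbc'
    rw [← hz, ← hw, Subtype.ext h]
  · intro x hx
    have h2 := hJ3 x hx b hb c hc
    rw [dist_eq_norm, ← map_sub] at h2
    exact h2

/-- The positive operator. -/
theorem exists_tee {E : H →L[ℂ] H} (hE : E * E = E) (hE' : star E = E)
    {A : Subalgebra ℂ (H →L[ℂ] H)} (hc : Comm A) (hA : Symm (Jm E) A) {κ : Cardinal.{0}}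
    (hκ : ℵ₀ ≤ κ) (hF : Sm κ (range (1 - E : H →L[ℂ] H))) {y₀ : H}
    (hy : ¬ Sm κ {z : H | ∃ a ∈ A, z = a y₀}) :
    ∃ T : H →L[ℂ] H, (∀ a ∈ A, ∀ x, T (a x) = a (T x)) ∧
      (∀ x y, fm (Jm E) (T x) y = fm (Jm E) x (T y)) ∧
      (∀ x, 0 ≤ (fm (Jm E) (T x) x).re) ∧ 0 < (fm (Jm E) (T y₀) y₀).re ∧
      (∀ S V : Submodule ℂ H, (∀ a ∈ A, ∀ x ∈ S, a x ∈ S) → (∀ a ∈ A, ∀ x ∈ V, a x ∈ V) →
        (∀ x ∈ S, ∀ y ∈ V, fm (Jm E) x y = 0) → ∀ x ∈ S, ∀ y ∈ V, fm (Jm E) (T x) y = 0) := by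
  classical
  have hG := herm_Jm hE hE'
  have hnd := nondeg_Jm hE hE'
  obtain ⟨δ, C, hδ, hC, hZ⟩ := exists_diff hκ hF hy
  choose Z hZA hZn hZy hZF using hZ
  let ω : Ultrafilter (Finset H × ℕ) := Ultrafilter.of atTop
  have hω : (ω : Filter (Finset H × ℕ)) ≤ atTop := Ultrafilter.of_le atTop
  have hZx : ∀ s x, ‖Z s x‖ ≤ C * ‖x‖ := fun s x =>
    (Z s).le_of_opNorm_le (hZn s) x
  have hin : ∀ s x y, ‖⟪Z s x, Z s y⟫_ℂ‖ ≤ C * ‖x‖ * (C * ‖y‖) := fun s x y =>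
    (norm_inner_le_norm _ _).trans (mul_le_mul (hZx s x) (hZx s y) (norm_nonneg _) (by positivity))
  obtain ⟨G, hGm⟩ := exists_avg (umean ω) (fun s => (ContinuousLinearMap.adjoint (Z s)).comp (Z s))
    (C * C) (by
      intro s x
      change ‖(ContinuousLinearMap.adjoint (Z s)) (Z s x)‖ ≤ _
      calc ‖(ContinuousLinearMap.adjoint (Z s)) (Z s x)‖
          ≤ ‖ContinuousLinearMap.adjoint (Z s)‖ * ‖Z s x‖ := ContinuousLinearMap.le_opNorm _ _
        _ ≤ C * (C * ‖x‖) := by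
            refine mul_le_mul ?_ (hZx s x) (norm_nonneg _) hC
            rw [LinearIsometryEquiv.norm_map]
            exact hZn s
        _ = C * C * ‖x‖ := by ring)
  set T : H →L[ℂ] H := (Jm E).comp G with hTdef
  have hT1 : ∀ x y, fm (Jm E) (T x) y = ulim ω (fun s => ⟪Z s x, Z s y⟫_ℂ) := by
    intro x y
    change ⟪Jm E (Jm E (G x)), y⟫_ℂ = _
    rw [Jm_apply_sq hE, hGm]
    change ulim ω (fun s => ⟪(ContinuousLinearMap.adjoint (Z s)) (Z s x), y⟫_ℂ) = _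
    congr 1
    ext s
    exact ContinuousLinearMap.adjoint_inner_left _ _ _
  have hfb : ∀ x y s, ‖fm (Jm E) (Z s x) (Z s y)‖ ≤ ‖Jm E‖ * (C * ‖x‖) * (C * ‖y‖) := by
    intro x y s
    refine (norm_inner_le_norm _ _).trans ?_
    have h1 : ‖(Jm E) (Z s x)‖ ≤ ‖Jm E‖ * (C * ‖x‖) :=
      ((Jm E).le_opNorm _).trans (mul_le_mul_of_nonneg_left (hZx s x) (norm_nonneg _))
    exact mul_le_mul h1 (hZx s y) (norm_nonneg _) (by positivity)
  have hT2 : ∀ x y, fm (Jm E) (T x) y = ulim ω (fun s => fm (Jm E) (Z s x) (Z s y)) := by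
    intro x y
    rw [hT1]
    have h1 := tendsto_ulim ω (f := fun s => ⟪Z s x, Z s y⟫_ℂ) (fun s => hin s x y)
    have h2 := tendsto_ulim ω (f := fun s => fm (Jm E) (Z s x) (Z s y)) (hfb x y)
    have h3 : Tendsto (fun s => ⟪Z s x, Z s y⟫_ℂ - fm (Jm E) (Z s x) (Z s y)) ω (𝓝 0) := by
      have h5 : Tendsto (fun i : Finset H × ℕ => 1 / ((i.2 : ℝ) + 1) *
          (2 * (‖(1 - E : H →L[ℂ] H)‖ * (C * ‖y‖)))) ω (𝓝 0) := by
        have h6 : Tendsto (fun n : ℕ => 1 / ((n : ℝ) + 1) *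
            (2 * (‖(1 - E : H →L[ℂ] H)‖ * (C * ‖y‖)))) atTop (𝓝 0) := by
          have h7 := (tendsto_one_div_add_atTop_nhds_zero_nat (𝕜 := ℝ)).mul_const
            (2 * (‖(1 - E : H →L[ℂ] H)‖ * (C * ‖y‖)))
          rw [zero_mul] at h7
          exact h7
        have h8 : Tendsto (fun i : Finset H × ℕ => i.2) ω atTop := by
          have h9 : Tendsto (Prod.snd : Finset H × ℕ → ℕ) atTop atTop := by
            rw [← prod_atTop_atTop_eq]
            exact tendsto_snd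
          exact h9.mono_left hω
        exact h6.comp h8
      refine squeeze_zero_norm' ?_ h5
      have h6 : ∀ᶠ i in (atTop : Filter (Finset H × ℕ)), x ∈ i.1 := by
        filter_upwards [eventually_ge_atTop (({x} : Finset H), 0)] with i hi
        exact hi.1 (Finset.mem_singleton_self x)
      filter_upwards [hω h6] with i hi
      have h7 : ⟪Z i x, Z i y⟫_ℂ - fm (Jm E) (Z i x) (Z i y) =
          2 * ⟪(1 - E) (Z i x), (1 - E) (Z i y)⟫_ℂ := by
        rw [inner_eq_fm hE hE' (Z i x) (Z i y)]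
        ring
      rw [h7, norm_mul]
      have h8 : ‖(2 : ℂ)‖ = 2 := by simp
      rw [h8]
      have h9 : ‖⟪(1 - E) (Z i x), (1 - E) (Z i y)⟫_ℂ‖ ≤
          1 / ((i.2 : ℝ) + 1) * (‖(1 - E : H →L[ℂ] H)‖ * (C * ‖y‖)) := by
        refine (norm_inner_le_norm _ _).trans ?_
        refine mul_le_mul (hZF i x hi).le ?_ (norm_nonneg _) (by positivity)
        exact ((1 - E : H →L[ℂ] H).le_opNorm _).trans
          (mul_le_mul_of_nonneg_left (hZx i y) (norm_nonneg _))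
      calc 2 * ‖⟪(1 - E) (Z i x), (1 - E) (Z i y)⟫_ℂ‖
          ≤ 2 * (1 / ((i.2 : ℝ) + 1) * (‖(1 - E : H →L[ℂ] H)‖ * (C * ‖y‖))) := by gcongr
        _ = _ := by ring
    have h4 := tendsto_nhds_unique h3 (h1.sub h2)
    exact (sub_eq_zero.mp h4.symm)
  have hsym : ∀ x y, fm (Jm E) (T x) y = fm (Jm E) x (T y) := by
    intro x y
    rw [hG (T y) x, hT1, hT1, ← ulim_conj ω (fun s => hin s y x)]
    congr 1
    ext s
    rw [inner_conj_symm]
  refine ⟨T, ?_, hsym, ?_, ?_, ?_⟩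
  · intro a ha x
    obtain ⟨a', ha', haa⟩ := hA a ha
    have h1 : T (a x) - a (T x) = 0 := hnd _ fun g => by
      apply hG.eq_zero
      rw [fm_sub_left, haa, hT2, hT2, sub_eq_zero]
      congr 1
      ext s
      rw [hc.apply (hZA s) ha, haa, hc.apply (hZA s) ha']
    exact sub_eq_zero.mp h1
  · intro x
    rw [hT1]
    refine (umean ω).pos _ _ 0 (fun s => hin s x x) fun s => ?_
    exact inner_self_nonneg (𝕜 := ℂ) (x := Z s x)
  · rw [hT1]
    refine lt_of_lt_of_le (b := δ ^ 2) (by positivity) ?_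
    refine (umean ω).pos _ _ _ (fun s => hin s y₀ y₀) fun s => ?_
    have h1 : (⟪Z s y₀, Z s y₀⟫_ℂ).re = ‖Z s y₀‖ ^ 2 := by
      rw [inner_self_eq_norm_sq_to_K]
      change ((‖Z s y₀‖ : ℂ) ^ 2).re = _
      rw [← Complex.ofReal_pow, Complex.ofReal_re]
    rw [h1]
    have := hZy s
    gcongr
  · intro S V hS hV hSV x hx y hy
    rw [hT2]
    have h1 : (fun s => fm (Jm E) (Z s x) (Z s y)) = fun _ => 0 := by
      ext s
      exact hSV _ (hS _ (hZA s) x hx) _ (hV _ (hZA s) y hy)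
    rw [h1]
    exact (umean ω).const 0

end Pool.Agent.H25.PH
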